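import Mathlib

set_option autoImplicit false

/-!
# Anticanonical height zeta functions over `𝔽_q(t)`: a negative answer

`V : ∑_{i=0}^p x_i y_i ^ p = 0` in `ℙ^p × ℙ^p` in characteristic `p`.
-/

namespace Pool.Agent.Results.MP_7b039f_nt.UnseparatedFlags

open scoped Polynomial LinearAlgebra.Projectivization

/-- The indices of the bihomogeneous coordinates `x_0, …, x_p` (`Sum.inl`) and
`y_0, …, y_p` (`Sum.inr`) of `ℙ^p × ℙ^p`. -/
abbrev Idx (p : ℕ) : Type := Fin (p + 1) ⊕ Fin (p + 1)

/-- The form `∑ x_i y_i ^ p` over the field `L`. -/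
noncomputable def form (p : ℕ) (L : Type) [Field L] : MvPolynomial (Idx p) L :=
  ∑ i, MvPolynomial.X (Sum.inl i) * MvPolynomial.X (Sum.inr i) ^ p

/-- The value of a polynomial with coefficients in `K` at homogeneous coordinates of a pair of
projective points over `L`. -/
noncomputable def value {p : ℕ} {K : Type} [Field K] (L : Type) [Field L] [Algebra K L]
    (F : MvPolynomial (Idx p) K) (P : ℙ L (Fin (p + 1) → L) × ℙ L (Fin (p + 1) → L)) : L :=
  MvPolynomial.aeval (Sum.elim P.1.rep P.2.rep) F

/-- The `L`-points of `V`. -/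
def points (p : ℕ) (L : Type) [Field L] : Set (ℙ L (Fin (p + 1) → L) × ℙ L (Fin (p + 1) → L)) :=
  {P | value L (form p L) P = 0}

/-- `F` is bihomogeneous of bidegree `(a, b)`. -/
def IsBihomogeneous {p : ℕ} {K : Type} [Field K] (F : MvPolynomial (Idx p) K) (a b : ℕ) : Prop :=
  ∀ d ∈ F.support, ∑ i, d (Sum.inl i) = a ∧ ∑ i, d (Sum.inr i) = b

/-- The `L`-points of the open subset of `V` on which some member of `S` does not vanish. -/
def openPoints {p : ℕ} {K : Type} [Field K] (L : Type) [Field L] [Algebra K L]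
    (S : Set (MvPolynomial (Idx p) K)) :
    Set (ℙ L (Fin (p + 1) → L) × ℙ L (Fin (p + 1) → L)) :=
  {P | P ∈ points p L ∧ ∃ F ∈ S, value L F P ≠ 0}

/-- The height of a point of projective space over `k(t)`: the least `m` such that the point has
homogeneous coordinates which are polynomials of degree at most `m`. -/
noncomputable def height {k : Type} [Field k] {ι : Type} (x : ℙ (RatFunc k) (ι → RatFunc k)) : ℕ :=
  sInf {m | ∃ (f : ι → k[X]) (hf : (fun i => algebraMap k[X] (RatFunc k) (f i)) ≠ 0),
    x = Projectivization.mk (RatFunc k) _ hf ∧ ∀ i, (f i).natDegree ≤ m}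

/-- The coordinates of the embedding by all monomials of bidegree `(p, 1)`. -/
def monomials {p : ℕ} {L : Type} [Field L] (x y : Fin (p + 1) → L) :
    Sym (Fin (p + 1)) p × Fin (p + 1) → L :=
  fun a => ((a.1 : Multiset (Fin (p + 1))).map x).prod * y a.2

lemma monomials_ne_zero {p : ℕ} {L : Type} [Field L] {x y : Fin (p + 1) → L}
    (hx : x ≠ 0) (hy : y ≠ 0) : monomials x y ≠ 0 := by
  obtain ⟨i, hi⟩ := Function.ne_iff.mp hx
  obtain ⟨j, hj⟩ := Function.ne_iff.mp hy
  intro h
  have h1 := congrFun h (Sym.replicate p i, j)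
  simp only [monomials, Sym.coe_replicate, Multiset.map_replicate, Multiset.prod_replicate,
    Pi.zero_apply, mul_eq_zero] at h1
  rcases h1 with h1 | h1
  · exact pow_ne_zero p hi h1
  · exact hj h1

/-- The embedding of `ℙ^p × ℙ^p` (hence of `V`) by all monomials of bidegree `(p, 1)`. -/
noncomputable def embedding {p : ℕ} {L : Type} [Field L]
    (P : ℙ L (Fin (p + 1) → L) × ℙ L (Fin (p + 1) → L)) :
    ℙ L (Sym (Fin (p + 1)) p × Fin (p + 1) → L) :=
  Projectivization.mk L (monomials P.1.rep P.2.rep)
    (monomials_ne_zero P.1.rep_nonzero P.2.rep_nonzero)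

/-- The series `∑ q ^ (- s h(P))`, `P` running through the `K`-points of the open set given
by `S`, converges. -/
def Converges {p : ℕ} {k : Type} [Field k] [Fintype k]
    (S : Set (MvPolynomial (Idx p) (RatFunc k))) (s : ℝ) : Prop :=
  Summable fun P : openPoints (RatFunc k) S =>
    (Fintype.card k : ℝ) ^ (-(s * (height (embedding P.1) : ℝ)))

/-- The abscissa of convergence. -/
noncomputable def abscissa {p : ℕ} {k : Type} [Field k] [Fintype k]
    (S : Set (MvPolynomial (Idx p) (RatFunc k))) : EReal :=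
  sInf ((fun s : ℝ => (s : EReal)) '' {s | Converges S s})

/-! ### evaluation -/

lemma aeval_smul_smul {p : ℕ} {K : Type} [Field K] {L : Type} [Field L] [Algebra K L]
    {F : MvPolynomial (Idx p) K} {a b : ℕ} (hF : IsBihomogeneous F a b) (c d : L)
    (x y : Fin (p + 1) → L) :
    MvPolynomial.aeval (Sum.elim (c • x) (d • y)) F
      = c ^ a * d ^ b * MvPolynomial.aeval (Sum.elim x y) F := by
  rw [MvPolynomial.aeval_def, MvPolynomial.aeval_def, MvPolynomial.eval₂_eq',
    MvPolynomial.eval₂_eq', Finset.mul_sum]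
  apply Finset.sum_congr rfl
  intro m hm
  obtain ⟨h1, h2⟩ := hF m hm
  rw [Fintype.prod_sum_type, Fintype.prod_sum_type]
  simp only [Sum.elim_inl, Sum.elim_inr, Pi.smul_apply, smul_eq_mul, mul_pow,
    Finset.prod_mul_distrib, Finset.prod_pow_eq_pow_sum]
  rw [h1, h2]
  ring

lemma value_mk_ne {p : ℕ} {K : Type} [Field K] {L : Type} [Field L] [Algebra K L]
    {F : MvPolynomial (Idx p) K} {a b : ℕ} (hF : IsBihomogeneous F a b)
    (x y : Fin (p + 1) → L) (hx : x ≠ 0) (hy : y ≠ 0)
    (h : MvPolynomial.aeval (Sum.elim x y) F ≠ 0) :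
    value L F (Projectivization.mk L x hx, Projectivization.mk L y hy) ≠ 0 := by
  obtain ⟨u, hu⟩ := Projectivization.exists_smul_eq_mk_rep L x hx
  obtain ⟨v, hv⟩ := Projectivization.exists_smul_eq_mk_rep L y hy
  unfold value
  rw [← hu, ← hv]
  have e := aeval_smul_smul hF (u : L) (v : L) x y
  rw [Units.smul_def, Units.smul_def, e]
  exact mul_ne_zero (mul_ne_zero (pow_ne_zero _ u.ne_zero) (pow_ne_zero _ v.ne_zero)) h

lemma aeval_form {p : ℕ} {L : Type} [Field L] (x y : Fin (p + 1) → L) :
    MvPolynomial.aeval (Sum.elim x y) (form p L) = ∑ i, x i * y i ^ p := by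
  simp [form]

lemma mem_points_mk {p : ℕ} {L : Type} [Field L] (x y : Fin (p + 1) → L) (hx : x ≠ 0)
    (hy : y ≠ 0) (h : ∑ i, x i * y i ^ p = 0) :
    (Projectivization.mk L x hx, Projectivization.mk L y hy) ∈ points p L := by
  obtain ⟨u, hu⟩ := Projectivization.exists_smul_eq_mk_rep L x hx
  obtain ⟨v, hv⟩ := Projectivization.exists_smul_eq_mk_rep L y hy
  unfold points value
  rw [Set.mem_ofPred_eq, ← hu, ← hv, aeval_form]
  simp only [Units.smul_def, Pi.smul_apply, smul_eq_mul, mul_pow]
  have : ∀ i, (u : L) * x i * ((v : L) ^ p * y i ^ p) = (u * v ^ p : L) * (x i * y i ^ p) := by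
    intro i; ring
  simp_rw [this]
  rw [← Finset.mul_sum, h, mul_zero]

/-! ### smoothness and irreducibility -/

lemma gradient {p : ℕ} {L : Type} [Field L] (P : ℙ L (Fin (p + 1) → L) × ℙ L (Fin (p + 1) → L)) :
    ∃ i, value L (MvPolynomial.pderiv (Sum.inl i) (form p L)) P ≠ 0 := by
  obtain ⟨i, hi⟩ := Function.ne_iff.mp P.2.rep_nonzero
  refine ⟨i, ?_⟩
  have e : MvPolynomial.pderiv (Sum.inl i) (form p L)
      = (MvPolynomial.X (Sum.inr i) ^ p : MvPolynomial (Idx p) L) := by
    unfold form
    rw [map_sum, Finset.sum_eq_single i]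
    · rw [Derivation.leibniz, Derivation.leibniz_pow]
      rw [MvPolynomial.pderiv_X_self, MvPolynomial.pderiv_X_of_ne (by simp)]
      simp
    · intro j _ hj
      rw [Derivation.leibniz, Derivation.leibniz_pow]
      rw [MvPolynomial.pderiv_X_of_ne (fun h => hj (Sum.inl.inj h)),
        MvPolynomial.pderiv_X_of_ne (by simp)]
      simp
    · simp
  unfold value
  rw [e, map_pow, MvPolynomial.aeval_X, Sum.elim_inr]
  exact pow_ne_zero _ hi

/-- the exponent of `x_i y_i ^ p` -/
noncomputable def mexp (p : ℕ) (i : Fin (p + 1)) : Idx p →₀ ℕ :=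
  Finsupp.single (Sum.inl i) 1 + Finsupp.single (Sum.inr i) p

lemma mexp_inl (p : ℕ) (i j : Fin (p + 1)) : mexp p i (Sum.inl j) = if i = j then 1 else 0 := by
  simp [mexp, Finsupp.single_apply]

lemma mexp_inr (p : ℕ) (i j : Fin (p + 1)) : mexp p i (Sum.inr j) = if i = j then p else 0 := by
  simp [mexp, Finsupp.single_apply]

lemma mexp_inj {p : ℕ} {i j : Fin (p + 1)} (h : mexp p i = mexp p j) : i = j := by
  have h1 := DFunLike.congr_fun h (Sum.inl j)
  rw [mexp_inl, mexp_inl, if_pos rfl] at h1
  by_contra h2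
  rw [if_neg h2] at h1
  exact zero_ne_one h1

lemma form_eq (p : ℕ) (L : Type) [Field L] :
    form p L = ∑ i, MvPolynomial.monomial (mexp p i) (1 : L) := by
  unfold form
  apply Finset.sum_congr rfl
  intro i _
  rw [MvPolynomial.X, MvPolynomial.X_pow_eq_monomial, MvPolynomial.monomial_mul, one_mul]
  rfl

lemma coeff_form (p : ℕ) (L : Type) [Field L] (i : Fin (p + 1)) :
    (form p L).coeff (mexp p i) = 1 := by
  classical
  rw [form_eq, MvPolynomial.coeff_sum, Finset.sum_eq_single i]
  · rw [MvPolynomial.coeff_monomial, if_pos rfl]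
  · intro j _ hj
    rw [MvPolynomial.coeff_monomial, if_neg (fun h => hj (mexp_inj h))]
  · simp

lemma support_form (p : ℕ) (L : Type) [Field L] {d : Idx p →₀ ℕ} (hd : d ∈ (form p L).support) :
    ∃ i, d = mexp p i := by
  classical
  rw [MvPolynomial.mem_support_iff, form_eq, MvPolynomial.coeff_sum] at hd
  obtain ⟨i, _, hi⟩ := Finset.exists_ne_zero_of_sum_ne_zero hd
  rw [MvPolynomial.coeff_monomial] at hi
  exact ⟨i, by by_contra h; exact hi (if_neg (fun h' => h h'.symm))⟩

lemma irreducible_form (p : ℕ) (hp : 0 < p) (L : Type) [Field L] : Irreducible (form p L) := by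
  have hm : ∀ i, mexp p i ∈ (form p L).support := by
    intro i
    rw [MvPolynomial.mem_support_iff, coeff_form]
    exact one_ne_zero
  refine MvPolynomial.irreducible_of_disjoint_support (d := mexp p 0) (i := Sum.inl 0) ?_ (hm 0)
    ?_ ?_ ?_
  · refine ⟨mexp p 0, hm 0, mexp p (Fin.last p), hm _, ?_⟩
    intro h
    have := mexp_inj h
    rw [Fin.ext_iff] at this
    simp at this
    omega
  · rw [mexp_inl, if_pos rfl]
  · intro d hd e he hde
    obtain ⟨i, rfl⟩ := support_form p L hd
    obtain ⟨j, rfl⟩ := support_form p L he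
    have hij : i ≠ j := fun h => hde (by rw [h])
    rw [Function.onFun, Finset.disjoint_left]
    intro z hz hz'
    rw [Finsupp.mem_support_iff] at hz hz'
    rcases z with z | z
    · rw [mexp_inl] at hz hz'
      have h1 : i = z := by by_contra h; exact hz (if_neg h)
      have h2 : j = z := by by_contra h; exact hz' (if_neg h)
      exact hij (h1.trans h2.symm)
    · rw [mexp_inr] at hz hz'
      have h1 : i = z := by by_contra h; exact hz (if_neg h)
      have h2 : j = z := by by_contra h; exact hz' (if_neg h)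
      exact hij (h1.trans h2.symm)
  · intro r hr
    exact isUnit_of_dvd_one (by simpa [coeff_form] using hr (mexp p 0))

/-! ### a line through a general point of a special fibre -/

/-- the substitution which parametrises the pairs `(z ^ p, u)` with `∑ z_i u_i = 0` -/
noncomputable def sub {p : ℕ} (K : Type) [Field K] (i₀ : Fin (p + 1)) :
    Idx p → MvPolynomial (Idx p) K :=
  Sum.elim (fun i => MvPolynomial.X (Sum.inl i) ^ p)
    (fun j => if j = i₀ then -∑ l ∈ Finset.univ.erase i₀,
        MvPolynomial.X (Sum.inl l) * MvPolynomial.X (Sum.inr l)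
      else MvPolynomial.X (Sum.inl i₀) * MvPolynomial.X (Sum.inr j))

/-- the second vector of the parametrised pair -/
def vec {p : ℕ} {R : Type} [CommRing R] (i₀ : Fin (p + 1)) (x y : Fin (p + 1) → R) :
    Fin (p + 1) → R :=
  fun j => if j = i₀ then -∑ l ∈ Finset.univ.erase i₀, x l * y l else x i₀ * y j

lemma vec_orth {p : ℕ} {R : Type} [CommRing R] (i₀ : Fin (p + 1)) (x y : Fin (p + 1) → R) :
    ∑ i, x i * vec i₀ x y i = 0 := by
  rw [← Finset.add_sum_erase _ _ (Finset.mem_univ i₀)]
  have h1 : ∑ l ∈ Finset.univ.erase i₀, x l * vec i₀ x y l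
      = x i₀ * ∑ l ∈ Finset.univ.erase i₀, x l * y l := by
    rw [Finset.mul_sum]
    apply Finset.sum_congr rfl
    intro l hl
    rw [vec, if_neg (Finset.ne_of_mem_erase hl)]
    ring
  rw [h1, vec, if_pos rfl]
  ring

lemma aeval_sub {p : ℕ} {K : Type} [Field K] {L : Type} [Field L] [Algebra K L]
    (i₀ : Fin (p + 1)) (x y : Fin (p + 1) → L) (F : MvPolynomial (Idx p) K) :
    MvPolynomial.aeval (Sum.elim x y) (MvPolynomial.aeval (sub K i₀) F)
      = MvPolynomial.aeval (Sum.elim (fun i => x i ^ p) (vec i₀ x y)) F := by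
  have h := MvPolynomial.comp_aeval (sub K i₀)
    (MvPolynomial.aeval (R := K) (Sum.elim x y) : MvPolynomial (Idx p) K →ₐ[K] L)
  have h1 := DFunLike.congr_fun h F
  rw [AlgHom.comp_apply] at h1
  rw [h1]
  congr 2
  funext t
  rcases t with t | t
  · simp [sub]
  · simp only [sub, Sum.elim_inr, vec]
    split_ifs with h2
    · simp
    · simp

lemma exists_line {p : ℕ} (hp2 : 2 ≤ p) {k : Type} [Field k] [Fact p.Prime] [CharP k p]
    {F : MvPolynomial (Idx p) (RatFunc k)} {a b : ℕ} (hF : IsBihomogeneous F a b)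
    (P : ℙ (AlgebraicClosure (RatFunc k)) (Fin (p + 1) → AlgebraicClosure (RatFunc k)) ×
      ℙ (AlgebraicClosure (RatFunc k)) (Fin (p + 1) → AlgebraicClosure (RatFunc k)))
    (hP : P ∈ points p (AlgebraicClosure (RatFunc k)))
    (hF0 : value (AlgebraicClosure (RatFunc k)) F P ≠ 0) :
    ∃ z u w : Fin (p + 1) → k[X], (∑ i, z i * u i = 0) ∧ (∑ i, z i * w i = 0) ∧ (∃ i, z i ≠ 0) ∧
      (∃ j l, u j ≠ 0 ∧ w j = 0 ∧ w l ≠ 0) ∧
      MvPolynomial.aeval (Sum.elim (fun i => algebraMap k[X] (RatFunc k) (z i) ^ p)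
        (fun i => algebraMap k[X] (RatFunc k) (u i))) F ≠ 0 := by
  classical
  set L := AlgebraicClosure (RatFunc k)
  have : CharP (RatFunc k) p :=
    charP_of_injective_ringHom (algebraMap k (RatFunc k)).injective p
  have : CharP L p := charP_of_injective_ringHom (algebraMap (RatFunc k) L).injective p
  have hp0 : 0 < p := by omega
  have hX := P.1.rep_nonzero
  have hY := P.2.rep_nonzero
  choose Z hZ using fun i => IsAlgClosed.exists_pow_nat_eq (P.1.rep i) hp0
  have hsum : ∑ i, Z i * P.2.rep i = 0 := by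
    have h1 : (∑ i, Z i * P.2.rep i) ^ p = 0 := by
      rw [sum_pow_char]
      have h2 : value L (form p L) P = 0 := hP
      unfold value at h2
      rw [aeval_form] at h2
      rw [← h2]
      apply Finset.sum_congr rfl
      intro i _
      rw [mul_pow, hZ]
    exact eq_zero_of_pow_eq_zero h1
  obtain ⟨i₀, hi₀⟩ : ∃ i, Z i ≠ 0 := by
    by_contra h
    push Not at h
    apply hX
    funext i
    rw [← hZ i, h i, zero_pow hp0.ne', Pi.zero_apply]
  obtain ⟨j₀, hj₀, hYj⟩ : ∃ j, j ≠ i₀ ∧ P.2.rep j ≠ 0 := by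
    by_contra h
    push Not at h
    have h1 : ∑ i, Z i * P.2.rep i = Z i₀ * P.2.rep i₀ := by
      apply Finset.sum_eq_single i₀
      · intro j _ hj
        rw [h j hj, mul_zero]
      · simp
    rw [hsum] at h1
    have h2 : P.2.rep i₀ = 0 := (mul_eq_zero.mp h1.symm).resolve_left hi₀
    apply hY
    funext j
    by_cases hj : j = i₀
    · rw [hj, h2]; rfl
    · rw [h j hj]; rfl
  have hvec : vec i₀ Z P.2.rep = Z i₀ • P.2.rep := by
    funext j
    rw [vec]
    split_ifs with h
    · rw [Pi.smul_apply, smul_eq_mul, h]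
      rw [← Finset.add_sum_erase _ _ (Finset.mem_univ i₀)] at hsum
      linear_combination -hsum
    · rw [Pi.smul_apply, smul_eq_mul]
  set H : MvPolynomial (Idx p) (RatFunc k) := MvPolynomial.aeval (sub (RatFunc k) i₀) F
    * MvPolynomial.X (Sum.inl i₀) * MvPolynomial.X (Sum.inr j₀) with hHdef
  have hH : H ≠ 0 := by
    intro h
    have h1 : MvPolynomial.aeval (Sum.elim Z P.2.rep) H = 0 := by rw [h, map_zero]
    rw [hHdef, map_mul, map_mul, aeval_sub, MvPolynomial.aeval_X, MvPolynomial.aeval_X,
      hvec] at h1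
    have h2 : (fun i => Z i ^ p) = (1 : L) • P.1.rep := by
      funext i
      rw [hZ, one_smul]
    rw [h2, aeval_smul_smul hF] at h1
    simp only [one_pow, one_mul, Sum.elim_inl, Sum.elim_inr, mul_eq_zero] at h1
    rcases h1 with ((h1 | h1) | h1) | h1
    · exact pow_ne_zero _ hi₀ h1
    · exact hF0 h1
    · exact hi₀ h1
    · exact hYj h1
  obtain ⟨x, hx⟩ : ∃ x : Idx p → k[X],
      MvPolynomial.aeval (fun t => algebraMap k[X] (RatFunc k) (x t)) H ≠ 0 := by
    by_contra hno
    push Not at hno
    apply hH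
    refine MvPolynomial.funext_set (fun _ => Set.range (algebraMap k[X] (RatFunc k)))
      (fun _ => Set.infinite_range_of_injective (RatFunc.algebraMap_injective k)) ?_
    intro ξ hξ
    rw [map_zero]
    choose x hx using fun t => hξ t (Set.mem_univ t)
    have h1 := hno x
    rw [MvPolynomial.aeval_eq_eval] at h1
    have h2 : (fun t => algebraMap k[X] (RatFunc k) (x t)) = ξ := funext hx
    rwa [h2] at h1
  obtain ⟨l₀, hl₀, hl₀'⟩ : ∃ l : Fin (p + 1), l ≠ i₀ ∧ l ≠ j₀ := by
    by_contra h
    push Not at h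
    have h1 : (Finset.univ : Finset (Fin (p + 1))) ⊆ {i₀, j₀} := by
      intro l _
      rw [Finset.mem_insert, Finset.mem_singleton]
      by_cases h2 : l = i₀
      · exact Or.inl h2
      · exact Or.inr (h l h2)
    have h2 := Finset.card_le_card h1
    have h3 := Finset.card_le_two (a := i₀) (b := j₀)
    rw [Finset.card_univ, Fintype.card_fin] at h2
    omega
  set z : Fin (p + 1) → k[X] := fun i => x (Sum.inl i) with hz
  set y : Fin (p + 1) → k[X] := fun i => x (Sum.inr i) with hy
  have hx' : (fun t => algebraMap k[X] (RatFunc k) (x t))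
      = Sum.elim (fun i => algebraMap k[X] (RatFunc k) (z i))
        (fun i => algebraMap k[X] (RatFunc k) (y i)) := by
    funext t
    rcases t with t | t <;> rfl
  have hmap : vec i₀ (fun i => algebraMap k[X] (RatFunc k) (z i))
      (fun i => algebraMap k[X] (RatFunc k) (y i))
      = fun i => algebraMap k[X] (RatFunc k) (vec i₀ z y i) := by
    funext j
    simp only [vec]
    split_ifs
    · simp
    · simp
  rw [hx', hHdef, map_mul, map_mul, aeval_sub, MvPolynomial.aeval_X, MvPolynomial.aeval_X,
    hmap] at hx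
  simp only [Sum.elim_inl, Sum.elim_inr, ne_eq, mul_eq_zero, not_or] at hx
  obtain ⟨⟨hx1, hx2⟩, hx3⟩ := hx
  have hz0 : z i₀ ≠ 0 := fun h => hx2 (by rw [h, map_zero])
  have hy0 : y j₀ ≠ 0 := fun h => hx3 (by rw [h, map_zero])
  refine ⟨z, vec i₀ z y, fun j => if j = l₀ then z i₀ else if j = i₀ then -z l₀ else 0,
    vec_orth i₀ z y, ?_, ⟨i₀, hz0⟩, ⟨j₀, l₀, ?_, ?_, ?_⟩, hx1⟩
  · rw [← Finset.add_sum_erase _ _ (Finset.mem_univ l₀),
      ← Finset.add_sum_erase _ _ (Finset.mem_erase.mpr ⟨hl₀.symm, Finset.mem_univ i₀⟩)]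
    beta_reduce
    rw [if_pos rfl, if_neg hl₀.symm, if_pos rfl, Finset.sum_eq_zero]
    · ring
    · intro j hj
      rw [Finset.mem_erase, Finset.mem_erase] at hj
      rw [if_neg hj.2.1, if_neg hj.1, mul_zero]
  · rw [vec, if_neg hj₀]
    exact mul_ne_zero hz0 hy0
  · beta_reduce
    rw [if_neg hl₀'.symm, if_neg hj₀]
  · beta_reduce
    rw [if_pos rfl]
    exact hz0

/-! ### divergence over the rational functions -/

/-- the polynomial of degree less than `M` with given coefficients -/
noncomputable def low {k : Type} [Field k] (M : ℕ) (a : Fin M → k) : k[X] :=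
  ((Polynomial.degreeLTEquiv k M).symm a : k[X])

lemma low_degree {k : Type} [Field k] (M : ℕ) (a : Fin M → k) : (low M a).degree < M :=
  Polynomial.mem_degreeLT.mp ((Polynomial.degreeLTEquiv k M).symm a).2

/-- the monic polynomial of degree `M` with given lower coefficients -/
noncomputable def mon {k : Type} [Field k] (M : ℕ) (a : Fin M → k) : k[X] :=
  Polynomial.X ^ M + low M a

lemma mon_monic {k : Type} [Field k] (M : ℕ) (a : Fin M → k) : (mon M a).Monic :=
  Polynomial.monic_X_pow_add (low_degree M a)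

lemma mon_natDegree {k : Type} [Field k] (M : ℕ) (a : Fin M → k) : (mon M a).natDegree = M := by
  have h : (mon M a).degree = M := by
    rw [mon, Polynomial.degree_add_eq_left_of_degree_lt]
    · exact Polynomial.degree_X_pow M
    · rw [Polynomial.degree_X_pow]
      exact low_degree M a
  exact Polynomial.natDegree_eq_of_degree_eq_some h

/-- monic polynomials -/
abbrev Mon (k : Type) [Field k] : Type := {g : k[X] // g.Monic}

lemma summable_coef (k : Type) [Field k] [Fintype k] :
    Summable fun x : (Σ M : ℕ, (Fin M → k)) => ((Fintype.card k : ℝ) ^ 2)⁻¹ ^ x.1 := by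
  have hq : (1 : ℝ) < Fintype.card k := by exact_mod_cast Fintype.one_lt_card
  have hq0 : (0 : ℝ) < Fintype.card k := by linarith
  rw [summable_sigma_of_nonneg (fun x => by positivity)]
  refine ⟨fun M => (hasSum_fintype _).summable, ?_⟩
  have : (fun M : ℕ => ∑' _ : (Fin M → k), ((Fintype.card k : ℝ) ^ 2)⁻¹ ^ M)
        = fun M : ℕ => ((Fintype.card k : ℝ))⁻¹ ^ M := by
      funext M
      rw [tsum_fintype, Finset.sum_const, Finset.card_univ, Fintype.card_fun, Fintype.card_fin,
        nsmul_eq_mul, Nat.cast_pow, ← mul_pow]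
      congr 1
      field_simp
  rw [this]
  exact summable_geometric_of_lt_one (by positivity) (inv_lt_one_of_one_lt₀ hq)

lemma exists_mon {k : Type} [Field k] (g : Mon k) :
    ∃ x : (Σ M : ℕ, (Fin M → k)), mon x.1 x.2 = g.1 := by
  have h3 : (g.1 - Polynomial.X ^ g.1.natDegree).degree < (g.1.natDegree : WithBot ℕ) := by
    have h4 := Polynomial.degree_eq_natDegree g.2.ne_zero
    rw [← h4]
    refine Polynomial.degree_sub_lt_left ?_ g.2.ne_zero ?_
    · rw [Polynomial.degree_X_pow, h4]
    · rw [g.2.leadingCoeff, Polynomial.leadingCoeff_X_pow]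
  refine ⟨⟨g.1.natDegree, Polynomial.degreeLTEquiv k _ ⟨_, Polynomial.mem_degreeLT.mpr h3⟩⟩, ?_⟩
  simp only [mon, low, LinearEquiv.symm_apply_apply]
  ring

lemma summable_mon (k : Type) [Field k] [Fintype k] :
    Summable fun g : Mon k => ((Fintype.card k : ℝ) ^ 2)⁻¹ ^ g.1.natDegree := by
  choose x hx using fun g : Mon k => exists_mon g
  have hinj : Function.Injective x := by
    intro g g' h
    apply Subtype.ext
    rw [← hx g, ← hx g', h]
  have h1 := (summable_coef k).comp_injective hinj
  refine h1.congr fun g => ?_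
  rw [Function.comp_apply, ← hx g, mon_natDegree]

/-- the degree of a rational function -/
noncomputable def deg {k : Type} [Field k] (x : RatFunc k) : ℕ :=
  max x.num.natDegree x.denom.natDegree

lemma exists_common {k : Type} [Field k] (a b : k[X]) (hb : b.Monic) (hab : a.degree < b.degree) :
    ∃ g : Mon k, b = g.1 * (algebraMap k[X] (RatFunc k) a / algebraMap k[X] (RatFunc k) b).denom ∧
      b.natDegree = deg (algebraMap k[X] (RatFunc k) a / algebraMap k[X] (RatFunc k) b)
        + g.1.natDegree := by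
  set x : RatFunc k := algebraMap k[X] (RatFunc k) a / algebraMap k[X] (RatFunc k) b with hx
  obtain ⟨g, hg⟩ := RatFunc.denom_div_dvd a b
  rw [← hx] at hg
  have hgm : g.Monic := by
    rw [hg] at hb
    exact (RatFunc.monic_denom x).of_mul_monic_left hb
  have hd : algebraMap k[X] (RatFunc k) x.denom ≠ 0 := by
    exact (map_ne_zero_iff _ (RatFunc.algebraMap_injective k)).mpr (RatFunc.monic_denom _).ne_zero
  have hm : algebraMap k[X] (RatFunc k) b ≠ 0 := by
    exact (map_ne_zero_iff _ (RatFunc.algebraMap_injective k)).mpr hb.ne_zero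
  have h6 : b.natDegree = x.denom.natDegree + g.natDegree := by
    conv_lhs => rw [hg]
    exact Polynomial.natDegree_mul (RatFunc.monic_denom _).ne_zero hgm.ne_zero
  refine ⟨⟨g, hgm⟩, by rw [mul_comm]; exact hg, ?_⟩
  have h7 : x.num.natDegree ≤ x.denom.natDegree := by
    by_cases h0 : x.num = 0
    · rw [h0, Polynomial.natDegree_zero]
      exact Nat.zero_le _
    · have h8 : algebraMap k[X] (RatFunc k) (x.num * g) = algebraMap k[X] (RatFunc k) a := by
        have h9 := RatFunc.num_div_denom x
        have h10 : x * algebraMap k[X] (RatFunc k) b = algebraMap k[X] (RatFunc k) a := by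
          rw [hx]
          exact div_mul_cancel₀ _ hm
        rw [← h10, hg, map_mul, map_mul]
        rw [div_eq_iff hd] at h9
        rw [h9]
        ring
      have h9 := RatFunc.algebraMap_injective k h8
      rw [← h9, Polynomial.degree_eq_natDegree (mul_ne_zero h0 hgm.ne_zero),
        Polynomial.degree_eq_natDegree hb.ne_zero, Polynomial.natDegree_mul h0 hgm.ne_zero] at hab
      have h11 : x.num.natDegree + g.natDegree < b.natDegree := by exact_mod_cast hab
      omega
  rw [deg, max_eq_right h7, h6]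

/-- the rational function of a pair of coefficient vectors -/
noncomputable def lam {k : Type} [Field k] (x : (Σ M : ℕ, (Fin M → k) × (Fin M → k))) :
    RatFunc k :=
  algebraMap k[X] (RatFunc k) (low x.1 x.2.1) / algebraMap k[X] (RatFunc k) (mon x.1 x.2.2)

lemma pair_inj {k : Type} [Field k] (x y : (Σ M : ℕ, (Fin M → k) × (Fin M → k)))
    (h3 : lam x = lam y) (h5 : mon x.1 x.2.2 = mon y.1 y.2.2) : x = y := by
  obtain ⟨M, a, c⟩ := x
  obtain ⟨M', a', c'⟩ := y
  simp only [lam] at h3 h5
  have h8 : M = M' := by rw [← mon_natDegree M c, h5, mon_natDegree]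
  subst h8
  have h9 : low M c = low M c' := by
    simpa [mon] using h5
  have h10 : c = c' := by
    exact (Polynomial.degreeLTEquiv k M).symm.injective (Subtype.ext h9)
  subst h10
  have h12 : algebraMap k[X] (RatFunc k) (mon M c) ≠ 0 :=
    (map_ne_zero_iff _ (RatFunc.algebraMap_injective k)).mpr (mon_monic M c).ne_zero
  rw [div_left_inj' h12] at h3
  have h11 : low M a = low M a' := RatFunc.algebraMap_injective k h3
  have h13 : a = a' := (Polynomial.degreeLTEquiv k M).symm.injective (Subtype.ext h11)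
  rw [h13]

lemma exists_fun (k : Type) [Field k] :
    ∃ g : (Σ M : ℕ, (Fin M → k) × (Fin M → k)) → Mon k,
      (∀ x, mon x.1 x.2.2 = (g x).1 * (lam x).denom) ∧
      ∀ x, (mon x.1 x.2.2).natDegree = deg (lam x) + (g x).1.natDegree := by
  have h : ∀ x : (Σ M : ℕ, (Fin M → k) × (Fin M → k)), ∃ g : Mon k,
      mon x.1 x.2.2 = g.1 * (lam x).denom ∧
        (mon x.1 x.2.2).natDegree = deg (lam x) + g.1.natDegree := by
    intro x
    refine exists_common (low x.1 x.2.1) (mon x.1 x.2.2) (mon_monic _ _) ?_
    rw [Polynomial.degree_eq_natDegree (mon_monic _ _).ne_zero, mon_natDegree]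
    exact low_degree _ _
  exact ⟨fun x => (h x).choose, fun x => (h x).choose_spec.1, fun x => (h x).choose_spec.2⟩

lemma mul_aux {α β : Type} {c : ℝ} (hc : 0 ≤ c) {f : α → ℕ} {g : β → ℕ}
    (hf : Summable fun x => c ^ f x) (hg : Summable fun x => c ^ g x) :
    Summable fun x : α × β => c ^ f x.1 * c ^ g x.2 :=
  Summable.mul_of_nonneg (f := fun x => c ^ f x) (g := fun x => c ^ g x) hf hg
    (fun _ => pow_nonneg hc _) (fun _ => pow_nonneg hc _)

/-- **Divergence.** -/
lemma not_summable_deg (k : Type) [Field k] [Fintype k] :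
    ¬ Summable fun x : RatFunc k => ((Fintype.card k : ℝ) ^ 2)⁻¹ ^ deg x := by
  intro hS
  have hq : (1 : ℝ) < Fintype.card k := by exact_mod_cast Fintype.one_lt_card
  have hq0 : (0 : ℝ) < Fintype.card k := by linarith
  have h1 : Summable fun x : RatFunc k × Mon k =>
      ((Fintype.card k : ℝ) ^ 2)⁻¹ ^ deg x.1 * ((Fintype.card k : ℝ) ^ 2)⁻¹ ^ x.2.1.natDegree :=
    mul_aux (f := fun x : RatFunc k => deg x) (g := fun g : Mon k => g.1.natDegree)
      (by positivity) hS (summable_mon k)
  obtain ⟨g, hg1, hg2⟩ := exists_fun k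
  have hinj : Function.Injective fun x : (Σ M : ℕ, (Fin M → k) × (Fin M → k)) =>
      ((lam x, g x) : RatFunc k × Mon k) := by
    intro x y h
    have h3 : lam x = lam y := congrArg Prod.fst h
    have h4 : g x = g y := congrArg Prod.snd h
    refine pair_inj x y h3 ?_
    rw [hg1 x, hg1 y, h4, h3]
  have h3 := h1.comp_injective hinj
  have h4 : Summable fun x : (Σ M : ℕ, (Fin M → k) × (Fin M → k)) =>
      ((Fintype.card k : ℝ) ^ 2)⁻¹ ^ x.1 := by
    refine h3.congr fun x => ?_
    change ((Fintype.card k : ℝ) ^ 2)⁻¹ ^ deg (lam x) * ((Fintype.card k : ℝ) ^ 2)⁻¹ ^ (g x).1.natDegree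
      = _
    have h7 : x.1 = deg (lam x) + (g x).1.natDegree := by
      rw [← mon_natDegree x.1 x.2.2]
      exact hg2 x
    rw [← pow_add, ← h7]
  rw [summable_sigma_of_nonneg (fun x => by positivity)] at h4
  have h5 := h4.2
  have h6 : (fun M : ℕ => ∑' _ : (Fin M → k) × (Fin M → k), ((Fintype.card k : ℝ) ^ 2)⁻¹ ^ M)
      = fun _ => 1 := by
    funext M
    rw [tsum_fintype, Finset.sum_const, Finset.card_univ, Fintype.card_prod, Fintype.card_fun,
      Fintype.card_fin, nsmul_eq_mul, Nat.cast_mul, Nat.cast_pow, ← mul_pow, ← mul_pow]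
    have : ((Fintype.card k : ℝ) * Fintype.card k * ((Fintype.card k : ℝ) ^ 2)⁻¹) = 1 := by
      field_simp
    rw [this, one_pow]
  change Summable (fun M : ℕ => ∑' _ : (Fin M → k) × (Fin M → k),
    ((Fintype.card k : ℝ) ^ 2)⁻¹ ^ M) at h5
  rw [h6, summable_const_iff] at h5
  exact one_ne_zero h5

/-! ### heights -/

lemma monomials_smul {p : ℕ} {L : Type} [Field L] (c d : L) (x y : Fin (p + 1) → L) :
    monomials (c • x) (d • y) = (c ^ p * d) • monomials x y := by
  funext a
  have h : (Multiset.map (fun i => c * x i) (a.1 : Multiset (Fin (p + 1)))).prod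
      = c ^ p * (Multiset.map x (a.1 : Multiset (Fin (p + 1)))).prod := by
    rw [Multiset.prod_map_mul, Multiset.map_const', Multiset.prod_replicate, Sym.card_coe]
  change (Multiset.map (fun i => c * x i) (a.1 : Multiset (Fin (p + 1)))).prod * (d * y a.2)
    = (c ^ p * d) * ((Multiset.map x (a.1 : Multiset (Fin (p + 1)))).prod * y a.2)
  rw [h]
  ring

lemma embedding_mk {p : ℕ} {L : Type} [Field L] (x y : Fin (p + 1) → L) (hx : x ≠ 0)
    (hy : y ≠ 0) :
    embedding (Projectivization.mk L x hx, Projectivization.mk L y hy)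
      = Projectivization.mk L (monomials x y) (monomials_ne_zero hx hy) := by
  obtain ⟨u, hu⟩ := Projectivization.exists_smul_eq_mk_rep L x hx
  obtain ⟨v, hv⟩ := Projectivization.exists_smul_eq_mk_rep L y hy
  unfold embedding
  rw [Projectivization.mk_eq_mk_iff']
  refine ⟨(u : L) ^ p * v, ?_⟩
  rw [← monomials_smul]
  have h1 : (u : L) • x = (Projectivization.mk L x hx).rep := hu
  have h2 : (v : L) • y = (Projectivization.mk L y hy).rep := hv
  rw [h1, h2]

/-- a bound for the height -/
lemma height_le {k : Type} [Field k] {ι : Type} (x : ι → RatFunc k) (hx : x ≠ 0) (c : RatFunc k)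
    (hc : c ≠ 0) (f : ι → k[X]) (h : ∀ i, c * x i = algebraMap k[X] (RatFunc k) (f i)) (m : ℕ)
    (hm : ∀ i, (f i).natDegree ≤ m) :
    height (Projectivization.mk (RatFunc k) x hx) ≤ m := by
  have hf : (fun i => algebraMap k[X] (RatFunc k) (f i)) ≠ 0 := by
    intro h0
    apply hx
    funext i
    have h1 := congrFun h0 i
    simp only [Pi.zero_apply] at h1
    rw [← h i] at h1
    exact (mul_eq_zero.mp h1).resolve_left hc
  apply Nat.sInf_le
  refine ⟨f, hf, ?_, hm⟩
  rw [Projectivization.mk_eq_mk_iff']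
  refine ⟨c⁻¹, ?_⟩
  funext i
  rw [Pi.smul_apply, smul_eq_mul, ← h i, inv_mul_cancel_left₀ hc]

/-! ### the points of the line -/

section line

variable {p : ℕ} {k : Type} [Field k]

/-- the first coordinate vector -/
noncomputable def xv (z : Fin (p + 1) → k[X]) : Fin (p + 1) → RatFunc k :=
  fun i => algebraMap k[X] (RatFunc k) (z i) ^ p

/-- the second coordinate vector -/
noncomputable def yv (u w : Fin (p + 1) → k[X]) (t : RatFunc k) : Fin (p + 1) → RatFunc k :=
  fun i => algebraMap k[X] (RatFunc k) (u i) + t * algebraMap k[X] (RatFunc k) (w i)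

lemma xv_ne (z : Fin (p + 1) → k[X]) (hz : ∃ i, z i ≠ 0) : xv z ≠ 0 := by
  obtain ⟨i, hi⟩ := hz
  intro h
  exact pow_ne_zero p ((map_ne_zero_iff _ (RatFunc.algebraMap_injective k)).mpr hi)
    (congrFun h i)

lemma yv_ne (u w : Fin (p + 1) → k[X]) (j : Fin (p + 1)) (hu : u j ≠ 0) (hw : w j = 0)
    (t : RatFunc k) : yv u w t ≠ 0 := by
  intro h
  have h1 := congrFun h j
  simp only [yv, hw, map_zero, mul_zero, add_zero, Pi.zero_apply] at h1
  exact (map_ne_zero_iff _ (RatFunc.algebraMap_injective k)).mpr hu h1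

lemma yv_inj (u w : Fin (p + 1) → k[X]) (j l : Fin (p + 1)) (hu : u j ≠ 0) (hw : w j = 0)
    (hl : w l ≠ 0) (t t' : RatFunc k)
    (h : Projectivization.mk (RatFunc k) (yv u w t) (yv_ne u w j hu hw t)
      = Projectivization.mk (RatFunc k) (yv u w t') (yv_ne u w j hu hw t')) : t = t' := by
  rw [Projectivization.mk_eq_mk_iff'] at h
  obtain ⟨c, hc⟩ := h
  have h1 := congrFun hc j
  have h2 := congrFun hc l
  simp only [yv, Pi.smul_apply, smul_eq_mul, hw, map_zero, mul_zero, add_zero] at h1 h2
  have hu' := (map_ne_zero_iff _ (RatFunc.algebraMap_injective k)).mpr hu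
  have hl' := (map_ne_zero_iff _ (RatFunc.algebraMap_injective k)).mpr hl
  have hc1 : c = 1 := by
    have : (c - 1) * algebraMap k[X] (RatFunc k) (u j) = 0 := by linear_combination h1
    exact sub_eq_zero.mp ((mul_eq_zero.mp this).resolve_right hu')
  subst hc1
  have : (t - t') * algebraMap k[X] (RatFunc k) (w l) = 0 := by linear_combination -h2
  exact sub_eq_zero.mp ((mul_eq_zero.mp this).resolve_right hl')

lemma orth (z u w : Fin (p + 1) → k[X]) [Fact p.Prime] [CharP k p]
    (h1 : ∑ i, z i * u i = 0) (h2 : ∑ i, z i * w i = 0) (t : RatFunc k) :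
    ∑ i, xv z i * yv u w t i ^ p = 0 := by
  have : CharP (RatFunc k) p :=
    charP_of_injective_ringHom (algebraMap k (RatFunc k)).injective p
  have h3 : ∑ i, algebraMap k[X] (RatFunc k) (z i) * yv u w t i = 0 := by
    have h4 : ∀ i, algebraMap k[X] (RatFunc k) (z i) * yv u w t i
        = algebraMap k[X] (RatFunc k) (z i * u i) + t * algebraMap k[X] (RatFunc k) (z i * w i) := by
      intro i
      rw [yv, map_mul, map_mul]
      ring
    simp_rw [h4]
    rw [Finset.sum_add_distrib, ← Finset.mul_sum, ← map_sum, ← map_sum, h1, h2, map_zero]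
    ring
  have h5 : ∀ i, xv z i * yv u w t i ^ p
      = (algebraMap k[X] (RatFunc k) (z i) * yv u w t i) ^ p := by
    intro i
    rw [mul_pow, xv]
  simp_rw [h5]
  rw [← sum_pow_char, h3, zero_pow (Fact.out : p.Prime).ne_zero]

/-- the height grows at most like the degree of the parameter -/
lemma height_line (z u w : Fin (p + 1) → k[X]) (hz : ∃ i, z i ≠ 0) (j : Fin (p + 1))
    (hu : u j ≠ 0) (hw : w j = 0) :
    ∃ C : ℕ, ∀ t : RatFunc k, height (embedding (Projectivization.mk (RatFunc k) (xv z) (xv_ne z hz),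
      Projectivization.mk (RatFunc k) (yv u w t) (yv_ne u w j hu hw t))) ≤ C + deg t := by
  refine ⟨p * (∑ i, (z i ^ p).natDegree) + (∑ i, ((u i).natDegree + (w i).natDegree)), ?_⟩
  intro t
  rw [embedding_mk]
  refine height_le _ _ (algebraMap k[X] (RatFunc k) t.denom)
    ((map_ne_zero_iff _ (RatFunc.algebraMap_injective k)).mpr (RatFunc.monic_denom t).ne_zero)
    (fun a => ((a.1 : Multiset (Fin (p + 1))).map (fun i => z i ^ p)).prod
      * (t.denom * u a.2 + t.num * w a.2)) ?_ _ ?_
  · intro a
    have h1 : algebraMap k[X] (RatFunc k) t.denom * yv u w t a.2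
        = algebraMap k[X] (RatFunc k) (t.denom * u a.2 + t.num * w a.2) := by
      have h9 := RatFunc.num_div_denom t
      rw [div_eq_iff ((map_ne_zero_iff _ (RatFunc.algebraMap_injective k)).mpr
        (RatFunc.monic_denom t).ne_zero)] at h9
      rw [map_add, map_mul, map_mul, h9, yv]
      ring
    have h2 : (Multiset.map (xv z) (a.1 : Multiset (Fin (p + 1)))).prod
        = algebraMap k[X] (RatFunc k)
          ((a.1 : Multiset (Fin (p + 1))).map (fun i => z i ^ p)).prod := by
      rw [map_multiset_prod, Multiset.map_map]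
      congr 1
      apply Multiset.map_congr rfl
      intro i _
      simp [xv]
    rw [monomials, h2, map_mul, ← h1]
    ring
  · intro a
    have h1 : ((a.1 : Multiset (Fin (p + 1))).map (fun i => z i ^ p)).prod.natDegree
        ≤ p * (∑ i, (z i ^ p).natDegree) := by
      refine (Polynomial.natDegree_multiset_prod_le _).trans ?_
      rw [Multiset.map_map]
      have h3 : ∀ x ∈ Multiset.map (Polynomial.natDegree ∘ fun i => z i ^ p)
          (a.1 : Multiset (Fin (p + 1))), x ≤ ∑ i, (z i ^ p).natDegree := by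
        intro x hx
        obtain ⟨i, _, rfl⟩ := Multiset.mem_map.mp hx
        exact Finset.single_le_sum (f := fun i => (z i ^ p).natDegree) (fun _ _ => Nat.zero_le _)
          (Finset.mem_univ i)
      have h4 := Multiset.sum_le_card_nsmul _ _ h3
      rw [Multiset.card_map, Sym.card_coe, smul_eq_mul] at h4
      exact h4
    have h2 : (t.denom * u a.2 + t.num * w a.2).natDegree
        ≤ (∑ i, ((u i).natDegree + (w i).natDegree)) + deg t := by
      have h5 : (u a.2).natDegree + (w a.2).natDegree
          ≤ ∑ i, ((u i).natDegree + (w i).natDegree) :=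
        Finset.single_le_sum (f := fun i => (u i).natDegree + (w i).natDegree)
          (fun _ _ => Nat.zero_le _) (Finset.mem_univ a.2)
      have h6 := Polynomial.natDegree_mul_le (p := t.denom) (q := u a.2)
      have h7 := Polynomial.natDegree_mul_le (p := t.num) (q := w a.2)
      have h8 := Polynomial.natDegree_add_le (t.denom * u a.2) (t.num * w a.2)
      have h9 : t.num.natDegree ≤ deg t := le_max_left _ _
      have h10 : t.denom.natDegree ≤ deg t := le_max_right _ _
      refine h8.trans (max_le ?_ ?_) <;> omega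
    refine Polynomial.natDegree_mul_le.trans ?_
    omega

end line

/-! ### the main statements -/

section main

variable {p : ℕ} {k : Type} [Field k]

/-- the restriction of a form to the line, as a polynomial in the parameter -/
noncomputable def restr (z u w : Fin (p + 1) → k[X]) (F : MvPolynomial (Idx p) (RatFunc k)) :
    (RatFunc k)[X] :=
  MvPolynomial.aeval (Sum.elim (fun i => Polynomial.C (xv z i))
    (fun i => Polynomial.C (algebraMap k[X] (RatFunc k) (u i))
      + Polynomial.X * Polynomial.C (algebraMap k[X] (RatFunc k) (w i)))) F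

lemma restr_eval (z u w : Fin (p + 1) → k[X]) (F : MvPolynomial (Idx p) (RatFunc k))
    (t : RatFunc k) :
    (restr z u w F).eval t = MvPolynomial.aeval (Sum.elim (xv z) (yv u w t)) F := by
  have h := MvPolynomial.comp_aeval (R := RatFunc k) (Sum.elim (fun i => Polynomial.C (xv z i))
    (fun i => Polynomial.C (algebraMap k[X] (RatFunc k) (u i))
      + Polynomial.X * Polynomial.C (algebraMap k[X] (RatFunc k) (w i))))
    (Polynomial.aeval t : (RatFunc k)[X] →ₐ[RatFunc k] RatFunc k)
  have h1 := DFunLike.congr_fun h F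
  rw [AlgHom.comp_apply, Polynomial.coe_aeval_eq_eval] at h1
  unfold restr
  rw [h1]
  congr 2
  funext i
  rcases i with i | i
  · simp
  · simp [yv]
    exact mul_comm _ _

/-- the open set contains all points of the line but finitely many, and the heights are bounded -/
lemma exists_family [Fact p.Prime] [CharP k p] (S : Set (MvPolynomial (Idx p) (RatFunc k)))
    (hS : ∀ F ∈ S, ∃ a b, IsBihomogeneous F a b)
    (hne : (openPoints (AlgebraicClosure (RatFunc k)) S).Nonempty) :
    ∃ (A : Set (RatFunc k)) (φ : A → openPoints (RatFunc k) S) (C : ℕ), Aᶜ.Finite ∧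
      Function.Injective φ ∧ ∀ t : A, height (embedding (φ t).1) ≤ C + deg t.1 := by
  obtain ⟨P, hP, F, hF, hF0⟩ := hne
  obtain ⟨a, b, hab⟩ := hS F hF
  obtain ⟨z, u, w, h1, h2, hz, ⟨j, l, hj, hwj, hwl⟩, h0⟩ :=
    exists_line (Fact.out : p.Prime).two_le hab P hP hF0
  obtain ⟨C, hC⟩ := height_line z u w hz j hj hwj
  have hG : restr z u w F ≠ 0 := by
    intro h
    apply h0
    have h3 := restr_eval z u w F 0
    rw [h, Polynomial.eval_zero] at h3
    have h4 : yv u w 0 = fun i => algebraMap k[X] (RatFunc k) (u i) := by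
      funext i
      rw [yv, zero_mul, add_zero]
    rw [h4] at h3
    exact h3.symm
  refine ⟨{t | (restr z u w F).eval t ≠ 0}, fun t => ⟨(Projectivization.mk (RatFunc k) (xv z)
    (xv_ne z hz), Projectivization.mk (RatFunc k) (yv u w t.1) (yv_ne u w j hj hwj t.1)),
    mem_points_mk _ _ _ _ (orth z u w h1 h2 t.1), F, hF, value_mk_ne hab _ _ _ _ ?_⟩, C, ?_, ?_, ?_⟩
  · rw [← restr_eval]
    exact t.2
  · refine (Polynomial.finite_setOfPred_isRoot hG).subset ?_
    intro t ht
    by_contra h
    exact ht h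
  · intro t t' h
    apply Subtype.ext
    exact yv_inj u w j l hj hwj hwl t.1 t'.1 (congrArg Prod.snd (congrArg Subtype.val h))
  · intro t
    exact hC t.1

/-- Density and divergence. -/
lemma main [Fintype k] [Fact p.Prime] [CharP k p] (S : Set (MvPolynomial (Idx p) (RatFunc k)))
    (hS : ∀ F ∈ S, ∃ a b, IsBihomogeneous F a b)
    (hne : (openPoints (AlgebraicClosure (RatFunc k)) S).Nonempty) :
    (openPoints (RatFunc k) S).Infinite ∧ ∀ s : ℝ, s ≤ 2 → ¬ Converges S s := by
  obtain ⟨A, φ, C, hA, hφ, hh⟩ := exists_family S hS hne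
  have hq : (1 : ℝ) < Fintype.card k := by exact_mod_cast Fintype.one_lt_card
  have hq0 : (0 : ℝ) < Fintype.card k := by linarith
  constructor
  · have hinf : Infinite A := by
      have : Infinite (RatFunc k) :=
        Infinite.of_injective _ (RatFunc.algebraMap_injective k)
      rw [Set.infinite_coe_iff]
      exact Set.Finite.infinite_compl hA |> fun h => by rwa [compl_compl] at h
    exact Set.infinite_coe_iff.mp (Infinite.of_injective φ hφ)
  · intro s hs hconv
    unfold Converges at hconv
    have h1 := hconv.comp_injective hφ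
    have h2 : Summable fun t : A => ((Fintype.card k : ℝ) ^ 2)⁻¹ ^ deg t.1 := by
      have h3 : Summable fun t : A => ((Fintype.card k : ℝ) ^ (2 * C)) *
          ((fun P : openPoints (RatFunc k) S =>
            (Fintype.card k : ℝ) ^ (-(s * (height (embedding P.1) : ℝ)))) ∘ φ) t := h1.mul_left _
      refine Summable.of_nonneg_of_le (fun t => by positivity) (fun t => ?_) h3
      rw [Function.comp_apply, ← Real.rpow_natCast, ← Real.rpow_natCast, ← Real.rpow_natCast,
        ← Real.rpow_neg hq0.le, ← Real.rpow_mul hq0.le, ← Real.rpow_add hq0]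
      apply Real.rpow_le_rpow_of_exponent_le hq.le
      have h4 : (height (embedding (φ t).1) : ℝ) ≤ C + deg t.1 := by exact_mod_cast hh t
      have h5 : (0 : ℝ) ≤ height (embedding (φ t).1) := Nat.cast_nonneg _
      have h6 : s * (height (embedding (φ t).1) : ℝ) ≤ 2 * (C + deg t.1) :=
        (mul_le_mul_of_nonneg_right hs h5).trans (by linarith)
      push_cast
      linarith
    have h3 : Summable fun t : RatFunc k => ((Fintype.card k : ℝ) ^ 2)⁻¹ ^ deg t := by
      have h4 := (hA.summable_compl_iff (f := fun t : RatFunc k =>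
        ((Fintype.card k : ℝ) ^ 2)⁻¹ ^ deg t))
      rw [compl_compl] at h4
      exact h4.mp h2
    exact not_summable_deg k h3

end main

/-- **Theorem.** Let `k` be a finite field of characteristic `p` with `q` elements and `K = k(t)`.
The form `∑ x_i y_i ^ p` is irreducible over every field, and its partial derivatives have no
common zero on `V`. Every non-empty open subset `U` of `V` (given by a set `S` of bihomogeneous
polynomials over `K`, one of which is non-zero at some point of `V` over the algebraic closure of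
`K`) has infinitely many `K`-points, and `∑ q ^ (- s h(P))`, `P ∈ U(K)`, diverges for all `s ≤ 2`,
where `h` is the height of the embedding by the monomials of bidegree `(p, 1)`; so the abscissa of
convergence is at least `2`.

By adjunction `ω_V⁻¹ = 𝒪(p, 1)`, so the question asks whether the abscissa is `1` for all small
dense open `U`. -/
theorem result (k : Type) [Field k] [Fintype k] (p : ℕ) [Fact p.Prime] [CharP k p] :
    (∀ (L : Type) [Field L], Irreducible (form p L) ∧
      ∀ P ∈ points p L, ∃ i, value L (MvPolynomial.pderiv i (form p L)) P ≠ 0) ∧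
    ∀ S : Set (MvPolynomial (Idx p) (RatFunc k)), (∀ F ∈ S, ∃ a b, IsBihomogeneous F a b) →
      (openPoints (AlgebraicClosure (RatFunc k)) S).Nonempty →
      (openPoints (RatFunc k) S).Infinite ∧ (∀ s : ℝ, s ≤ 2 → ¬ Converges S s) ∧
        2 ≤ abscissa S := by
  refine ⟨fun L _ => ⟨irreducible_form p (Fact.out : p.Prime).pos L, fun P _ => ?_⟩, ?_⟩
  · obtain ⟨i, hi⟩ := gradient P
    exact ⟨Sum.inl i, hi⟩
  · intro S hS hne
    obtain ⟨h1, h2⟩ := main S hS hne
    refine ⟨h1, h2, ?_⟩
    unfold abscissa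
    apply le_sInf
    rintro _ ⟨s, hs, rfl⟩
    by_contra h
    push Not at h
    have h3 : s ≤ 2 := by
      have h4 : (s : EReal) ≤ ((2 : ℝ) : EReal) := h.le
      exact EReal.coe_le_coe_iff.mp h4
    exact h2 s h3 hs

end Pool.Agent.Results.MP_7b039f_nt.UnseparatedFlags
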